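import Pool.Agent.H28.MCL.Targets
import Pool.Agent.H27.T2.Sign

/-!
Board mlc_modules, row ERR: approximation of the product of the values of the Möbius function.
-/

set_option autoImplicit false

open Finset Filter

namespace Pool.Agent.H23.MCL

open Pool.Agent.H28.MCL
open Pool.Agent.H24.MR (lam)
open Pool.Agent.H24.T2 (Fr)
open Pool.Agent.H27.T2 (good Fr_eq_zero_of_sq Fr_eq_prod)

/-- an error comes from the square of a large prime -/
theorem err_cases {r : ℕ} (α : Fin r → ℤ) (ε : Fin r → ℕ) (q n₀ w W : ℕ)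
    (hα : Function.Injective α) (hε : ∀ i, 1 ≤ ε i) (hW : 0 < W) (hqW : q ∣ W)
    (hp : ∀ p : ℕ, p.Prime → p ≤ w → p ^ 2 ∣ W) (y : ℕ) (hy : ∀ i, 0 < (y : ℤ) + α i)
    (hyn : y ≡ n₀ [MOD q])
    (hsq : ∀ i, ¬ ∃ p : ℕ, p.Prime ∧ w < p ∧ (p : ℤ) ^ 2 ∣ (y : ℤ) + α i) :
    Fr α ε y = if y % W ∈ good α q n₀ w W then gs (od α ε) y else 0 := by
  classical
  have h1 : (y : ℤ) = ((y % W : ℕ) : ℤ) + W * ((y / W : ℕ) : ℤ) := by
    exact_mod_cast (Nat.mod_add_div y W).symm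
  have hdv : ∀ (i : Fin r) (p : ℕ), p.Prime → p ≤ w →
      ((p : ℤ) ^ 2 ∣ (y : ℤ) + α i ↔ (p : ℤ) ^ 2 ∣ ((y % W : ℕ) : ℤ) + α i) := by
    intro i p hpp hpw
    have h2 : (p : ℤ) ^ 2 ∣ (W : ℤ) := by exact_mod_cast hp p hpp hpw
    have h3 : (p : ℤ) ^ 2 ∣ (W : ℤ) * ((y / W : ℕ) : ℤ) := h2.mul_right _
    have h4 : (y : ℤ) + α i = (((y % W : ℕ) : ℤ) + α i) + W * ((y / W : ℕ) : ℤ) := by
      rw [h1]
      have h5 : (((y % W : ℕ) : ℤ) + W * ((y / W : ℕ) : ℤ)).toNat = y := by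
        rw [← h1]
        exact Int.toNat_natCast y
      have h6 : ((y % W : ℕ) : ℤ) + (W : ℤ) * ((y / W : ℕ) : ℤ) = (y : ℤ) := h1.symm
      rw [h6]
      linarith
    rw [h4]
    exact (Int.dvd_add_left h3)
  by_cases hg : y % W ∈ good α q n₀ w W
  · rw [if_pos hg]
    have hg' := (Finset.mem_filter.1 hg).2.2
    have hF : Fr α ε y ≠ 0 := by
      unfold Fr
      refine Finset.prod_ne_zero_iff.2 fun i _ => pow_ne_zero _ ?_
      have h2 : Squarefree (((y : ℤ) + α i).toNat) := by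
        rw [Nat.squarefree_iff_prime_squarefree]
        intro p hpp hd
        have h3 : (p : ℤ) ^ 2 ∣ (y : ℤ) + α i := by
          have h4 : ((p * p : ℕ) : ℤ) ∣ ((((y : ℤ) + α i).toNat : ℕ) : ℤ) := by
            exact_mod_cast hd
          rw [Int.toNat_of_nonneg (hy i).le] at h4
          push_cast at h4
          rwa [← pow_two] at h4
        rcases le_or_gt p w with h5 | h5
        · exact hg' i p hpp h5 ((hdv i p hpp h5).1 h3)
        · exact hsq i ⟨p, hpp, h5, h3⟩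
      have h6 := ArithmeticFunction.moebius_ne_zero_iff_squarefree.2 h2
      exact_mod_cast h6
    rw [Fr_eq_prod α ε y hF hε]
    unfold gs od
    rw [Finset.prod_image (fun a _ b _ hab => hα hab)]
  · rw [if_neg hg]
    unfold good at hg
    rw [Finset.mem_filter, Finset.mem_range] at hg
    have h2 : ∃ i, ∃ p : ℕ, p.Prime ∧ p ≤ w ∧ (p : ℤ) ^ 2 ∣ ((y % W : ℕ) : ℤ) + α i := by
      by_contra hcon
      refine hg ⟨Nat.mod_lt _ hW, ((Nat.mod_modEq y W).of_dvd hqW).trans hyn, ?_⟩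
      intro i p hpp hpw hd
      exact hcon ⟨i, p, hpp, hpw, hd⟩
    obtain ⟨i, p, hpp, hpw, hd⟩ := h2
    exact Fr_eq_zero_of_sq α ε hε y i p hpp ((hdv i p hpp hpw).2 hd)

theorem err (h : T_SQD) (hB : T_BAV) : T_ERR := by
  classical
  intro r α ε q n₀ w W hα hε hq hw hW hqW hp
  have h1 : ∀ i, ∃ K : ℕ, ∀ x y : ℕ, 0 < x → K * x ≤ y →
      ∑ n ∈ Finset.Icc x y,
        ind (fun n => ∃ p : ℕ, p.Prime ∧ w < p ∧ (p : ℤ) ^ 2 ∣ (n : ℤ) + α i) n / n ≤
        4 / w * Real.log ((y : ℝ) / x) := fun i => h w (α i) hw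
  choose K hK using h1
  set Y : ℕ := ∑ i, (α i).natAbs with hY
  set C : ℝ := ∑ n ∈ Finset.range (Y + 1), 1 / (n : ℝ) with hC
  have hC0 : 0 ≤ C := Finset.sum_nonneg fun n _ => by positivity
  have hwR : (0 : ℝ) < w := by exact_mod_cast hw
  refine ⟨∑ i, K i + 1 + ⌈Real.exp (w * C)⌉₊, fun x y hx hxy => ?_⟩
  have hxR : (0 : ℝ) < x := by exact_mod_cast hx
  have hKx : ∀ i, K i * x ≤ y := fun i => le_trans (Nat.mul_le_mul_right x
    ((Finset.single_le_sum (fun _ _ => Nat.zero_le _) (Finset.mem_univ i)).trans (by omega))) hxy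
  set L := Real.log ((y : ℝ) / x) with hL
  have hLC : w * C ≤ L := by
    have h2 : Real.exp (w * C) ≤ (y : ℝ) / x := by
      rw [le_div_iff₀ hxR]
      have h3 : Real.exp (w * C) ≤ ((∑ i, K i + 1 + ⌈Real.exp (w * C)⌉₊ : ℕ) : ℝ) := by
        have h4 := Nat.le_ceil (Real.exp (w * C))
        refine h4.trans ?_
        exact_mod_cast Nat.le_add_left _ _
      have h5 : ((∑ i, K i + 1 + ⌈Real.exp (w * C)⌉₊ : ℕ) : ℝ) * x ≤ y := by exact_mod_cast hxy
      exact le_trans (mul_le_mul_of_nonneg_right h3 hxR.le) h5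
    have h6 := Real.log_le_log (Real.exp_pos _) h2
    rwa [Real.log_exp] at h6
  have h2 : ∀ n ∈ Finset.Icc x y, ind (fun y => y ≡ n₀ [MOD q] ∧
      Fr α ε y ≠ if y % W ∈ good α q n₀ w W then gs (od α ε) y else 0) n / n ≤
      ∑ i, ind (fun n => ∃ p : ℕ, p.Prime ∧ w < p ∧ (p : ℤ) ^ 2 ∣ (n : ℤ) + α i) n / n +
        if n ∈ Finset.range (Y + 1) then 1 / (n : ℝ) else 0 := by
    intro n hn
    have hn0 : (0 : ℝ) ≤ 1 / (n : ℝ) := by positivity
    have hi0 : ∀ (P : ℕ → Prop) (n : ℕ), 0 ≤ ind P n := by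
      intro P n
      unfold ind
      split_ifs
      · exact zero_le_one
      · exact le_refl _
    have hs0 : 0 ≤ ∑ i, ind (fun n => ∃ p : ℕ, p.Prime ∧ w < p ∧
        (p : ℤ) ^ 2 ∣ (n : ℤ) + α i) n / n :=
      Finset.sum_nonneg fun i _ => div_nonneg (hi0 _ _) (Nat.cast_nonneg _)
    have hr0 : (0 : ℝ) ≤ if n ∈ Finset.range (Y + 1) then 1 / (n : ℝ) else 0 := by
      split_ifs
      · exact hn0
      · exact le_refl _
    by_cases hP : n ≡ n₀ [MOD q] ∧
        Fr α ε n ≠ if n % W ∈ good α q n₀ w W then gs (od α ε) n else 0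
    · have e1 : ind (fun y => y ≡ n₀ [MOD q] ∧
          Fr α ε y ≠ if y % W ∈ good α q n₀ w W then gs (od α ε) y else 0) n = 1 := by
        unfold ind
        exact if_pos hP
      rw [e1]
      by_cases hr : n ∈ Finset.range (Y + 1)
      · rw [if_pos hr]
        linarith
      · have hYn : Y < n := by
          rw [Finset.mem_range] at hr
          omega
        have hpos : ∀ i, 0 < (n : ℤ) + α i := by
          intro i
          have h3 : (α i).natAbs ≤ Y :=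
            Finset.single_le_sum (f := fun i => (α i).natAbs) (fun _ _ => Nat.zero_le _)
              (Finset.mem_univ i)
          omega
        have h3 : ∃ i, ∃ p : ℕ, p.Prime ∧ w < p ∧ (p : ℤ) ^ 2 ∣ (n : ℤ) + α i := by
          by_contra hcon
          refine hP.2 (err_cases α ε q n₀ w W hα hε hW hqW hp n hpos hP.1 fun i hi => ?_)
          exact hcon ⟨i, hi⟩
        obtain ⟨i, hi⟩ := h3
        have e2 : ind (fun n => ∃ p : ℕ, p.Prime ∧ w < p ∧ (p : ℤ) ^ 2 ∣ (n : ℤ) + α i) n = 1 := by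
          unfold ind
          exact if_pos hi
        have e3 : ind (fun n => ∃ p : ℕ, p.Prime ∧ w < p ∧ (p : ℤ) ^ 2 ∣ (n : ℤ) + α i) n / n ≤
            ∑ i, ind (fun n => ∃ p : ℕ, p.Prime ∧ w < p ∧ (p : ℤ) ^ 2 ∣ (n : ℤ) + α i) n / n :=
          Finset.single_le_sum (f := fun i => ind (fun n => ∃ p : ℕ, p.Prime ∧ w < p ∧
            (p : ℤ) ^ 2 ∣ (n : ℤ) + α i) n / (n : ℝ))
            (fun i _ => div_nonneg (hi0 _ _) (Nat.cast_nonneg _)) (Finset.mem_univ i)
        rw [e2] at e3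
        linarith
    · have e1 : ind (fun y => y ≡ n₀ [MOD q] ∧
          Fr α ε y ≠ if y % W ∈ good α q n₀ w W then gs (od α ε) y else 0) n = 0 := by
        unfold ind
        exact if_neg hP
      rw [e1, zero_div]
      exact add_nonneg hs0 hr0
  refine (Finset.sum_le_sum h2).trans ?_
  rw [Finset.sum_add_distrib, Finset.sum_comm]
  have h3 : ∑ i, ∑ n ∈ Finset.Icc x y,
      ind (fun n => ∃ p : ℕ, p.Prime ∧ w < p ∧ (p : ℤ) ^ 2 ∣ (n : ℤ) + α i) n / n ≤
      ∑ _i : Fin r, 4 / w * L := Finset.sum_le_sum fun i _ => hK i x y hx (hKx i)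
  rw [Finset.sum_const, Finset.card_univ, Fintype.card_fin, nsmul_eq_mul] at h3
  have h4 : ∑ n ∈ Finset.Icc x y, (if n ∈ Finset.range (Y + 1) then 1 / (n : ℝ) else 0) ≤ C := by
    rw [← Finset.sum_filter]
    refine Finset.sum_le_sum_of_subset_of_nonneg ?_ fun n _ _ => by positivity
    intro n hn
    exact (Finset.mem_filter.1 hn).2
  have h5 : (4 * (r : ℝ) + 1) / w * L = r * (4 / w * L) + 1 / w * L := by ring
  have h6 : C ≤ 1 / w * L := by
    rw [one_div, inv_mul_eq_div, le_div_iff₀ hwR]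
    linarith
  rw [h5]
  linarith

end Pool.Agent.H23.MCL
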