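import Pool.Agent.H28.MCL.Targets

/-!
Board mlc_modules, row ERS: the error at a good `N`.
-/

set_option autoImplicit false

open Finset Filter

namespace Pool.Agent.H23.MCL

open Pool.Agent.H28.MCL

theorem abs_prod_le_one {ι : Type} (s : Finset ι) (f : ι → ℝ) (hf : ∀ i, |f i| ≤ 1) :
    |∏ i ∈ s, f i| ≤ 1 := by
  rw [Finset.abs_prod]
  exact Finset.prod_le_one (fun i _ => abs_nonneg _) (fun i _ => hf i)

theorem abs_prod_sub_prod {ι : Type} (s : Finset ι) (f g : ι → ℝ) (hf : ∀ i, |f i| ≤ 1)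
    (hg : ∀ i, |g i| ≤ 1) : |∏ i ∈ s, f i - ∏ i ∈ s, g i| ≤ ∑ i ∈ s, |f i - g i| := by
  classical
  induction s using Finset.induction_on with
  | empty => simp
  | insert a s ha ih =>
    rw [Finset.prod_insert ha, Finset.prod_insert ha, Finset.sum_insert ha]
    have h1 : f a * ∏ i ∈ s, f i - g a * ∏ i ∈ s, g i =
        (f a - g a) * ∏ i ∈ s, f i + g a * (∏ i ∈ s, f i - ∏ i ∈ s, g i) := by ring
    rw [h1]
    refine (abs_add_le _ _).trans (add_le_add ?_ ?_)
    · rw [abs_mul]
      have := mul_le_mul_of_nonneg_left (abs_prod_le_one s f hf) (abs_nonneg (f a - g a))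
      rwa [mul_one] at this
    · rw [abs_mul]
      have := mul_le_mul (hg a) ih (abs_nonneg _) zero_le_one
      rwa [one_mul] at this

theorem ers (h : T_AVG) : T_ERS := by
  classical
  intro m q n₀ τ F G θ N H T hm hq hθ hF hG hH hHN hT hTN hGd
  set e : Fin m → ℕ → ℝ := fun l z =>
    ind (fun y => y ≡ n₀ + τ l [MOD q] ∧ F l y ≠ G l y) z with he
  have he0 : ∀ l z, 0 ≤ e l z := by
    intro l z
    rw [he]
    unfold ind
    dsimp only
    split_ifs
    · exact zero_le_one
    · exact le_refl _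
  have hm0 : (0 : ℝ) < m := by exact_mod_cast hm
  have hT0 : (0 : ℝ) < T := by exact_mod_cast hT
  have hee : ∀ z, ∑ l, e l z = m * ee q n₀ τ F G z := by
    intro z
    unfold ee
    rw [← mul_assoc, mul_one_div_cancel hm0.ne', one_mul]
  have hee0 : ∀ z, 0 ≤ ee q n₀ τ F G z := by
    intro z
    unfold ee
    exact mul_nonneg (by positivity) (Finset.sum_nonneg fun l _ => he0 l z)
  have h1 := h (ee q n₀ τ F G) θ 1 n₀ N H T hee0 hθ one_pos hH hHN hT hTN hGd
  have hiv : iv N H 1 n₀ = Finset.Ioc (N - H) N := by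
    unfold iv
    exact Finset.filter_true_of_mem fun n _ => Nat.modEq_one
  rw [hiv] at h1
  have h2 : ∑ t ∈ bx m T q τ, ∑ n ∈ iv N H q n₀,
      |∏ l, F l (n + t l) - ∏ l, G l (n + t l)| ≤
      ∑ t ∈ Fintype.piFinset (fun _ : Fin m => Finset.Icc 1 T), ∑ n ∈ Finset.Ioc (N - H) N,
        2 * ∑ l, e l (n + t l) := by
    have h3 : ∑ t ∈ bx m T q τ, ∑ n ∈ iv N H q n₀,
        |∏ l, F l (n + t l) - ∏ l, G l (n + t l)| ≤
        ∑ t ∈ bx m T q τ, ∑ n ∈ Finset.Ioc (N - H) N, 2 * ∑ l, e l (n + t l) := by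
      refine Finset.sum_le_sum fun t ht => ?_
      have h4 : ∑ n ∈ iv N H q n₀, |∏ l, F l (n + t l) - ∏ l, G l (n + t l)| ≤
          ∑ n ∈ iv N H q n₀, 2 * ∑ l, e l (n + t l) := by
        refine Finset.sum_le_sum fun n hn => ?_
        refine (abs_prod_sub_prod Finset.univ _ _ (fun l => hF l _) (fun l => hG l _)).trans ?_
        rw [Finset.mul_sum]
        refine Finset.sum_le_sum fun l _ => ?_
        by_cases hFG : F l (n + t l) = G l (n + t l)
        · rw [hFG, sub_self, abs_zero]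
          exact mul_nonneg zero_le_two (he0 l _)
        · have h5 : n + t l ≡ n₀ + τ l [MOD q] :=
            Nat.ModEq.add (Finset.mem_filter.1 hn).2 ((Finset.mem_filter.1 ht).2 l)
          have h6 : e l (n + t l) = 1 := by
            rw [he]
            unfold ind
            dsimp only
            rw [if_pos ⟨h5, hFG⟩]
          rw [h6, mul_one]
          have h7 := abs_sub (F l (n + t l)) (G l (n + t l))
          linarith [hF l (n + t l), hG l (n + t l)]
      refine h4.trans (Finset.sum_le_sum_of_subset_of_nonneg (Finset.filter_subset _ _)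
        fun n _ _ => mul_nonneg zero_le_two (Finset.sum_nonneg fun l _ => he0 l _))
    refine h3.trans (Finset.sum_le_sum_of_subset_of_nonneg (Finset.filter_subset _ _)
      fun t _ _ => Finset.sum_nonneg fun n _ =>
        mul_nonneg zero_le_two (Finset.sum_nonneg fun l _ => he0 l _))
  refine h2.trans ?_
  have h8 : ∑ t ∈ Fintype.piFinset (fun _ : Fin m => Finset.Icc 1 T),
      ∑ n ∈ Finset.Ioc (N - H) N, 2 * ∑ l, e l (n + t l) =
      2 * m * (T : ℝ) ^ m * ∑ n ∈ Finset.Ioc (N - H) N,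
        (1 / (T : ℝ) * ∑ s ∈ Finset.Icc 1 T, ee q n₀ τ F G (n + s)) := by
    rw [Finset.sum_comm, Finset.mul_sum]
    refine Finset.sum_congr rfl fun n _ => ?_
    rw [← Finset.mul_sum, Finset.sum_comm]
    have h9 : ∀ l : Fin m, ∑ t ∈ Fintype.piFinset (fun _ : Fin m => Finset.Icc 1 T),
        e l (n + t l) = (T : ℝ) ^ (m - 1) * ∑ s ∈ Finset.Icc 1 T, e l (n + s) := by
      intro l
      have h10 := Fintype.sum_piFinset_apply (fun s => e l (n + s)) (Finset.Icc 1 T) l
      rw [h10, nsmul_eq_mul, Nat.card_Icc, Nat.add_sub_cancel, Fintype.card_fin]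
      push_cast
      rfl
    rw [Finset.sum_congr rfl fun l _ => h9 l, ← Finset.mul_sum, Finset.sum_comm,
      Finset.sum_congr rfl fun s _ => hee (n + s), ← Finset.mul_sum]
    have h11 : (T : ℝ) ^ m = (T : ℝ) ^ (m - 1) * T := by
      rw [← pow_succ, Nat.sub_add_cancel hm]
    rw [h11]
    field_simp
  rw [h8]
  have h12 : (0 : ℝ) ≤ 2 * m * (T : ℝ) ^ m := by positivity
  refine (mul_le_mul_of_nonneg_left h1 h12).trans (le_of_eq ?_)
  push_cast
  ring

end Pool.Agent.H23.MCL
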