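import Pool.Agent.H28.MCL.Targets

/-!
Board mlc_modules, row MAX: the maximal inequality.
-/

set_option autoImplicit false

open Finset Filter

namespace Pool.Agent.H23.MCL

open Pool.Agent.H28.MCL

theorem max (hL : T_MXL) (hR : T_MXR) (hG : T_MXG) : T_MAX := by
  classical
  rintro b δ θ hb0 hb1 hδ hθ ⟨K, hK⟩
  refine ⟨K + 1 + ⌈2 * Real.exp (1 / δ)⌉₊, fun x y hx hxy => ?_⟩
  have hxR : (0 : ℝ) < x := by exact_mod_cast hx
  -- sizes
  have hKx : K * x ≤ y := le_trans (Nat.mul_le_mul_right x (by omega)) hxy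
  have hxy1 : x ≤ y := by
    have h1 : 1 * x ≤ (K + 1 + ⌈2 * Real.exp (1 / δ)⌉₊) * x := Nat.mul_le_mul_right x (by omega)
    omega
  have hyR : (0 : ℝ) < y := by exact_mod_cast lt_of_lt_of_le hx hxy1
  have hKx1 : K * ((x + 1) / 2) ≤ y :=
    le_trans (Nat.mul_le_mul_left K (by omega)) hKx
  have hKx2 : K * x ≤ 2 * y := by omega
  have hx' : 0 < (x + 1) / 2 := by omega
  have hLog : Real.log 2 + 1 / δ ≤ Real.log ((y : ℝ) / x) := by
    have h1 : 2 * Real.exp (1 / δ) ≤ (y : ℝ) / x := by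
      rw [le_div_iff₀ hxR]
      have h2 : 2 * Real.exp (1 / δ) ≤ ((K + 1 + ⌈2 * Real.exp (1 / δ)⌉₊ : ℕ) : ℝ) := by
        have h3 := Nat.le_ceil (2 * Real.exp (1 / δ))
        push_cast
        have h4 : (0 : ℝ) ≤ K := Nat.cast_nonneg K
        linarith
      have h5 : ((K + 1 + ⌈2 * Real.exp (1 / δ)⌉₊ : ℕ) : ℝ) * x ≤ y := by exact_mod_cast hxy
      exact le_trans (mul_le_mul_of_nonneg_right h2 hxR.le) h5
    have h6 := Real.log_le_log (by positivity) h1
    rwa [Real.log_mul (by norm_num) (Real.exp_pos _).ne', Real.log_exp] at h6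
  set L := Real.log ((y : ℝ) / x) with hLdef
  -- the sums
  have e1 : ∑ n ∈ Finset.Icc ((x + 1) / 2) y, b n / n ≤ δ * (Real.log 2 + L) := by
    refine (hK _ _ hx' hKx1).trans (mul_le_mul_of_nonneg_left ?_ hδ.le)
    have h1 : (x : ℝ) / 2 ≤ (((x + 1) / 2 : ℕ) : ℝ) := by
      have h2 : x ≤ 2 * ((x + 1) / 2) := by omega
      have h3 : (x : ℝ) ≤ 2 * (((x + 1) / 2 : ℕ) : ℝ) := by exact_mod_cast h2
      linarith
    have h4 : (y : ℝ) / (((x + 1) / 2 : ℕ) : ℝ) ≤ 2 * ((y : ℝ) / x) := by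
      have h5 : (0 : ℝ) < (x : ℝ) / 2 := by positivity
      refine (div_le_div_of_nonneg_left hyR.le h5 h1).trans (le_of_eq ?_)
      field_simp
    have h6 : (0 : ℝ) < (y : ℝ) / (((x + 1) / 2 : ℕ) : ℝ) := by
      have : (0 : ℝ) < (((x + 1) / 2 : ℕ) : ℝ) := by exact_mod_cast hx'
      positivity
    refine (Real.log_le_log h6 h4).trans (le_of_eq ?_)
    rw [Real.log_mul (by norm_num) (by positivity)]
  have e2 : ∑ n ∈ Finset.Icc x (2 * y), b n / n ≤ δ * (Real.log 2 + L) := by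
    refine (hK _ _ hx hKx2).trans (mul_le_mul_of_nonneg_left (le_of_eq ?_) hδ.le)
    have h1 : ((2 * y : ℕ) : ℝ) / x = 2 * ((y : ℝ) / x) := by push_cast; ring
    rw [h1, Real.log_mul (by norm_num) (by positivity)]
  have e3 : ∑ n ∈ Finset.Icc x y, b n / n ≤ δ * L := hK _ _ hx hKx
  -- the three cases
  set PL : ℕ → Prop := fun N => ∃ H : ℕ, 1 ≤ H ∧ 2 * H ≤ N ∧
    θ * H < ∑ n ∈ Finset.Ioc (N - H) N, b n with hPL
  set PR : ℕ → Prop := fun N => ∃ H : ℕ, 1 ≤ H ∧ H ≤ N ∧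
    θ * H < ∑ n ∈ Finset.Ioc N (N + H), b n with hPR
  set PG : ℕ → Prop := fun N => ∃ H : ℕ, N < 2 * H ∧ H ≤ N ∧
    θ * H < ∑ n ∈ Finset.Ioc (N - H) N, b n with hPG
  have f1 := hL b θ x y ((Finset.Icc x y).filter PL) hb0 hθ hx (Finset.filter_subset _ _)
    (fun N hN => (Finset.mem_filter.1 hN).2)
  have f2 := hR b θ x y ((Finset.Icc x y).filter PR) hb0 hθ hx (Finset.filter_subset _ _)
    (fun N hN => (Finset.mem_filter.1 hN).2)
  have f3 := hG b θ x y ((Finset.Icc x y).filter PG) hb0 hb1 hθ hx (Finset.filter_subset _ _)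
    (fun N hN => (Finset.mem_filter.1 hN).2)
  have f4 : ∑ N ∈ Finset.Icc x y, ind (fun N => ¬ Gd b θ N) N / N ≤
      ∑ N ∈ (Finset.Icc x y).filter PL, (1 : ℝ) / N +
        ∑ N ∈ (Finset.Icc x y).filter PR, (1 : ℝ) / N +
        ∑ N ∈ (Finset.Icc x y).filter PG, (1 : ℝ) / N := by
    rw [Finset.sum_filter, Finset.sum_filter, Finset.sum_filter, ← Finset.sum_add_distrib,
      ← Finset.sum_add_distrib]
    refine Finset.sum_le_sum fun N hN => ?_
    have hN0 : (0 : ℝ) ≤ 1 / (N : ℝ) := by positivity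
    have g1 : ∀ P : Prop, ∀ [Decidable P], (0 : ℝ) ≤ if P then (1 : ℝ) / N else 0 := by
      intro P _
      split_ifs
      · exact hN0
      · exact le_refl _
    unfold ind
    by_cases hg : Gd b θ N
    · rw [if_neg (not_not.2 hg), zero_div]
      exact add_nonneg (add_nonneg (g1 _) (g1 _)) (g1 _)
    · rw [if_pos hg]
      unfold Gd at hg
      push Not at hg
      obtain ⟨H, h1, h2, h3⟩ := hg
      by_cases h4 : ∑ n ∈ Finset.Ioc (N - H) N, b n ≤ θ * H
      · have h5 : PR N := ⟨H, h1, h2, h3 h4⟩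
        rw [if_pos h5]
        linarith [g1 (PL N), g1 (PG N)]
      · have h6 := not_le.1 h4
        rcases le_or_gt (2 * H) N with h7 | h7
        · have h5 : PL N := ⟨H, h1, h7, h6⟩
          rw [if_pos h5]
          linarith [g1 (PR N), g1 (PG N)]
        · have h5 : PG N := ⟨H, h7, h2, h6⟩
          rw [if_pos h5]
          linarith [g1 (PR N), g1 (PL N)]
  have g2 : (0 : ℝ) ≤ 2 / θ := by positivity
  have g4 : (0 : ℝ) ≤ 4 / θ := by positivity
  have f5 := mul_le_mul_of_nonneg_left e1 g2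
  have f6 := mul_le_mul_of_nonneg_left e2 g2
  have f7 := mul_le_mul_of_nonneg_left (add_le_add_right e3 1) g4
  have f8 : 2 / θ * (δ * (Real.log 2 + L)) + 2 / θ * (δ * (Real.log 2 + L)) +
      4 / θ * (1 + δ * L) ≤ 12 * δ / θ * L := by
    have h1 : 12 * δ / θ * L - (2 / θ * (δ * (Real.log 2 + L)) +
        2 / θ * (δ * (Real.log 2 + L)) + 4 / θ * (1 + δ * L)) =
        4 * δ / θ * (L - (Real.log 2 + 1 / δ)) := by
      field_simp
      ring
    have h2 : 0 ≤ 4 * δ / θ * (L - (Real.log 2 + 1 / δ)) :=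
      mul_nonneg (by positivity) (sub_nonneg.2 hLog)
    linarith
  linarith

end Pool.Agent.H23.MCL
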